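import Pool.Agent.Helper53.AE.GoalsB

/-!
# Packet AE-KRN (MP_8130e1_an): Krein's extension theorem
-/

set_option autoImplicit false

open scoped ComplexOrder Topology ComplexStarModule
open Filter TopologicalSpace Complex

namespace Pool.Agent.Helper86.AE.KRN

section

variable {G : Type} [CStarAlgebra G]

lemma pos_iff {a : G} : (CStarAlgebra.spectralOrder G).le 0 a ↔ ∃ z : G, a = star z * z := by
  let _ := CStarAlgebra.spectralOrder G
  let _ := CStarAlgebra.spectralOrderedRing G
  exact CStarAlgebra.nonneg_iff_eq_star_mul_self (A := G)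

/-- The cone of the elements of the form `star z * z`. -/
def cone (G : Type) [CStarAlgebra G] : PointedCone ℝ (selfAdjoint G) where
  carrier := {x | ∃ z : G, (x : G) = star z * z}
  add_mem' := by
    intro a b ha hb
    let _ := CStarAlgebra.spectralOrder G
    let _ := CStarAlgebra.spectralOrderedRing G
    have ha' : (0 : G) ≤ (a : G) := pos_iff.2 ha
    have hb' : (0 : G) ≤ (b : G) := pos_iff.2 hb
    exact pos_iff.1 (add_nonneg ha' hb')
  zero_mem' := ⟨0, by simp⟩
  smul_mem' := by
    rintro ⟨c, hc⟩ x ⟨z, hz⟩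
    refine ⟨((Real.sqrt c : ℝ) : ℂ) • z, ?_⟩
    have h1 : (((⟨c, hc⟩ : {c : ℝ // 0 ≤ c}) • x : selfAdjoint G) : G) = (c : ℂ) • (x : G) := by
      rw [Complex.coe_smul]
      rfl
    rw [h1, hz, star_smul, smul_mul_smul_comm, Complex.star_def, Complex.conj_ofReal,
      ← Complex.ofReal_mul, Real.mul_self_sqrt hc]

lemma mem_cone {x : selfAdjoint G} : x ∈ cone G ↔ ∃ z : G, (x : G) = star z * z := Iff.rfl

lemma norm_sub {x : G} (hx : IsSelfAdjoint x) :
    ∃ z : G, (‖x‖ : ℂ) • (1 : G) - x = star z * z := by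
  let _ := CStarAlgebra.spectralOrder G
  let _ := CStarAlgebra.spectralOrderedRing G
  have h := hx.le_algebraMap_norm_self
  have h2 : (0 : G) ≤ (‖x‖ : ℂ) • (1 : G) - x := by
    rw [sub_nonneg]
    refine h.trans (le_of_eq ?_)
    rw [Algebra.algebraMap_eq_smul_one]
    exact (Complex.coe_smul _ _).symm
  exact CStarAlgebra.nonneg_iff_eq_star_mul_self.1 h2

end

/-- **KRN.** -/
theorem t : Pool.Agent.Helper53.AE.S_KRN := by
  intro G _ V Λ h1 hstar hpos
  -- real values
  have hone : 0 ≤ Λ ⟨1, h1⟩ := hpos ⟨1, h1⟩ ⟨1, by simp⟩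
  have hreal : ∀ x : V, IsSelfAdjoint (x : G) → ((Λ x).re : ℂ) = Λ x := by
    intro x hx
    obtain ⟨z, hz⟩ := norm_sub hx
    have h2 : 0 ≤ Λ ((‖(x : G)‖ : ℂ) • ⟨1, h1⟩ - x) := hpos _ ⟨z, hz⟩
    rw [map_sub, map_smul] at h2
    have h3 := (Complex.nonneg_iff.1 h2).2
    have h4 := (Complex.nonneg_iff.1 hone).2
    have h5 : (Λ x).im = 0 := by
      simp only [smul_eq_mul, sub_im, mul_im, ofReal_re, ofReal_im, zero_mul, add_zero] at h3
      rw [← h4] at h3
      linarith
    apply Complex.ext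
    · simp
    · simp [h5]
  -- the real functional
  let D : Submodule ℝ (selfAdjoint G) :=
    { carrier := {x | (x : G) ∈ V}
      add_mem' := by
        intro a b ha hb
        exact V.add_mem ha hb
      zero_mem' := V.zero_mem
      smul_mem' := by
        intro c x hx
        show ((c • x : selfAdjoint G) : G) ∈ V
        have : ((c • x : selfAdjoint G) : G) = (c : ℂ) • (x : G) := by
          rw [Complex.coe_smul]
          rfl
        rw [this]
        exact V.smul_mem _ hx }
  let f : selfAdjoint G →ₗ.[ℝ] ℝ :=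
    { domain := D
      toFun :=
        { toFun := fun x => (Λ ⟨((x : selfAdjoint G) : G), x.2⟩).re
          map_add' := by
            intro x y
            rw [← Complex.add_re, ← map_add]
            rfl
          map_smul' := by
            intro c x
            have : (⟨(((c • x : D) : selfAdjoint G) : G), (c • x : D).2⟩ : V) =
                (c : ℂ) • ⟨((x : selfAdjoint G) : G), x.2⟩ := by
              apply Subtype.ext
              show (((c • x : D) : selfAdjoint G) : G) = (c : ℂ) • ((x : selfAdjoint G) : G)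
              rw [Complex.coe_smul]
              rfl
            rw [this, map_smul]
            simp } }
  have hf : ∀ x : f.domain, f x = (Λ ⟨((x : selfAdjoint G) : G), x.2⟩).re := fun x => rfl
  obtain ⟨g, hg1, hg2⟩ := riesz_extension (cone G) f (by
      intro x hx
      rw [hf]
      exact (Complex.nonneg_iff.1 (hpos _ (mem_cone.1 hx))).1) (by
      intro y
      obtain ⟨z, hz⟩ := norm_sub (y.2.neg)
      have h3 : IsSelfAdjoint ((‖-(y : G)‖ : ℂ) • (1 : G)) := by
        rw [Complex.coe_smul]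
        exact IsSelfAdjoint.smul (IsSelfAdjoint.all (‖-(y : G)‖)) (IsSelfAdjoint.one G)
      refine ⟨⟨⟨(‖-(y : G)‖ : ℂ) • (1 : G), h3⟩, V.smul_mem _ h1⟩, mem_cone.2 ⟨z, ?_⟩⟩
      rw [← hz, sub_neg_eq_add]
      rfl)
  -- complex linear extension
  let L : G →ₗ[ℂ] ℂ :=
    { toFun := fun x => (g (ℜ x) : ℂ) + I * g (ℑ x)
      map_add' := by
        intro x y
        rw [map_add, map_add, map_add, map_add]
        push_cast
        ring
      map_smul' := by
        intro c x
        rw [realPart_smul, imaginaryPart_smul]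
        simp only [map_add, map_sub, map_smul, smul_eq_mul, RingHom.id_apply]
        push_cast
        apply Complex.ext
        · simp
        · simp }
  have hL : ∀ x, L x = (g (ℜ x) : ℂ) + I * g (ℑ x) := fun x => rfl
  have hVre : ∀ x ∈ V, ((ℜ x : selfAdjoint G) : G) ∈ V := by
    intro x hx
    rw [realPart_apply_coe, ← Complex.coe_smul]
    exact V.smul_mem _ (V.add_mem hx (hstar x hx))
  have hVim : ∀ x ∈ V, ((ℑ x : selfAdjoint G) : G) ∈ V := by
    intro x hx
    rw [imaginaryPart_apply_coe, ← Complex.coe_smul]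
    exact V.smul_mem _ (V.smul_mem _ (V.sub_mem hx (hstar x hx)))
  refine ⟨L, ?_, ?_⟩
  · intro x
    have e1 : (g (ℜ (x : G)) : ℂ) = Λ ⟨((ℜ (x : G) : selfAdjoint G) : G), hVre _ x.2⟩ := by
      rw [← hreal ⟨_, hVre _ x.2⟩ (ℜ (x : G)).2]
      exact congrArg (fun (u : ℝ) => (u : ℂ)) (hg1 ⟨ℜ (x : G), hVre _ x.2⟩)
    have e2 : (g (ℑ (x : G)) : ℂ) = Λ ⟨((ℑ (x : G) : selfAdjoint G) : G), hVim _ x.2⟩ := by
      rw [← hreal ⟨_, hVim _ x.2⟩ (ℑ (x : G)).2]
      exact congrArg (fun (u : ℝ) => (u : ℂ)) (hg1 ⟨ℑ (x : G), hVim _ x.2⟩)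
    rw [hL, e1, e2, ← smul_eq_mul, ← map_smul, ← map_add]
    congr 1
    apply Subtype.ext
    exact realPart_add_I_smul_imaginaryPart (x : G)
  · intro z
    have hs : IsSelfAdjoint (star z * z) := IsSelfAdjoint.star_mul_self z
    rw [hL, hs.imaginaryPart]
    have h3 : 0 ≤ g (ℜ (star z * z)) := by
      apply hg2
      rw [mem_cone]
      exact ⟨z, hs.coe_realPart⟩
    rw [map_zero]
    simpa using h3

end Pool.Agent.Helper86.AE.KRN
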